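import Pool.Agent.MWH.StmtsA

/-!
# MWH, row OKW: basic facts about the two letter words `W`
-/

set_option autoImplicit false

namespace Pool.Agent.MWH.H60

open Pool.Agent.Helper14_MV Pool.Agent.Helper2_MV Pool.Agent.MVO Pool.Agent.MWL Pool.Agent.MWS
  Pool.Agent.MWH

theorem bef_iff (l : List ℕ) (x y : ℕ) : Bef l x y ↔ ¬ (List.Sublist [y, x] l) := by
  unfold Bef
  rw [List.cons_sublist_iff]
  constructor
  · rintro h ⟨r1, r2, hl, hy, hx⟩
    rw [List.singleton_sublist] at hx
    obtain ⟨s, t, rfl⟩ := List.append_of_mem hy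
    refine h s (t ++ r2) ?_ (List.mem_append_right _ hx)
    rw [hl, List.append_assoc, List.cons_append]
  · rintro h P Q hl hx
    refine h ⟨P ++ [y], Q, ?_, ?_, ?_⟩
    · rw [hl, List.append_assoc]
      rfl
    · exact List.mem_append_right _ (List.mem_singleton_self y)
    · rw [List.singleton_sublist]
      exact hx

theorem sub_rep (c d m n : ℕ) (hm : m ≠ 0) (hn : n ≠ 0) :
    List.Sublist [c, d] (List.replicate m c ++ List.replicate n d) := by
  have h1 : List.Sublist [c] (List.replicate m c) :=
    List.singleton_sublist.2 (List.mem_replicate.2 ⟨hm, rfl⟩)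
  have h2 : List.Sublist [d] (List.replicate n d) :=
    List.singleton_sublist.2 (List.mem_replicate.2 ⟨hn, rfl⟩)
  exact h1.append h2

theorem not_sub_rep (c d m n : ℕ) (h : c ≠ d) :
    ¬ List.Sublist [d, c] (List.replicate m c ++ List.replicate n d) := by
  rw [List.cons_sublist_iff]
  rintro ⟨r1, r2, hl, hd, hc⟩
  rw [List.singleton_sublist] at hc
  obtain ⟨s, t, rfl⟩ := List.append_of_mem hd
  rcases List.append_eq_append_iff.1 hl with ⟨u, h1, h2⟩ | ⟨u, h1, h2⟩
  · have h3 : c ∈ List.replicate n d := by
      rw [h2]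
      exact List.mem_append_right _ hc
    exact h (List.eq_of_mem_replicate h3)
  · have h3 : d ∈ List.replicate m c := by
      rw [h1]
      exact List.mem_append_left _ hd
    exact h (List.eq_of_mem_replicate h3).symm

theorem blk_count (p q : ℕ) (hp : p ≠ 0) (hq : q ≠ 0) (s : Stt) :
    (blk p q s).count 0 = p ∧ (blk p q s).count 1 = q := by
  cases s with
  | xy => simp [blk, List.count_replicate]
  | yx => simp [blk, List.count_replicate]
  | ov =>
    unfold blk
    dsimp only
    split_ifs with h
    · simp [List.count_cons, List.count_replicate]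
      omega
    · simp [List.count_cons, List.count_replicate]
      omega

theorem blk_mem (p q : ℕ) (s : Stt) : ∀ c ∈ blk p q s, c = 0 ∨ c = 1 := by
  intro c hc
  cases s with
  | xy =>
    rcases List.mem_append.1 hc with h | h
    · exact Or.inl (List.eq_of_mem_replicate h)
    · exact Or.inr (List.eq_of_mem_replicate h)
  | yx =>
    rcases List.mem_append.1 hc with h | h
    · exact Or.inr (List.eq_of_mem_replicate h)
    · exact Or.inl (List.eq_of_mem_replicate h)
  | ov =>
    unfold blk at hc
    dsimp only at hc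
    split_ifs at hc with h
    · rcases List.mem_cons.1 hc with h | h
      · exact Or.inl h
      rcases List.mem_append.1 h with h | h
      · exact Or.inr (List.eq_of_mem_replicate h)
      · exact Or.inl (List.eq_of_mem_replicate h)
    · rcases List.mem_cons.1 hc with h | h
      · exact Or.inr h
      rcases List.mem_append.1 h with h | h
      · exact Or.inl (List.eq_of_mem_replicate h)
      · exact Or.inr (List.eq_of_mem_replicate h)

theorem blk_bef (p q : ℕ) (hp : p ≠ 0) (hq : q ≠ 0) (s : Stt) (hs : s = Stt.ov → 2 ≤ p ∨ 2 ≤ q) :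
    (Bef (blk p q s) 0 1 ↔ s = Stt.xy) ∧ (Bef (blk p q s) 1 0 ↔ s = Stt.yx) := by
  rw [bef_iff, bef_iff]
  cases s with
  | xy =>
    have h1 := sub_rep 0 1 p q hp hq
    have h2 := not_sub_rep 0 1 p q (by decide)
    exact ⟨⟨fun _ => rfl, fun _ => h2⟩, ⟨fun h => absurd h1 h, fun h => by cases h⟩⟩
  | yx =>
    have h1 := sub_rep 1 0 q p hq hp
    have h2 := not_sub_rep 1 0 q p (by decide)
    exact ⟨⟨fun h => absurd h1 h, fun h => by cases h⟩, ⟨fun _ => rfl, fun _ => h2⟩⟩
  | ov =>
    have h12 : List.Sublist [1, 0] (blk p q Stt.ov) ∧ List.Sublist [0, 1] (blk p q Stt.ov) := by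
      unfold blk
      dsimp only
      split_ifs with h
      · refine ⟨(sub_rep 1 0 q (p - 1) hq (by omega)).cons _, List.Sublist.cons_cons _ ?_⟩
        exact List.singleton_sublist.2
          (List.mem_append_left _ (List.mem_replicate.2 ⟨hq, rfl⟩))
      · have hq2 : 2 ≤ q := by
          rcases hs rfl with h3 | h3
          · exact absurd h3 h
          · exact h3
        refine ⟨List.Sublist.cons_cons _ ?_, (sub_rep 0 1 p (q - 1) hp (by omega)).cons _⟩
        exact List.singleton_sublist.2
          (List.mem_append_left _ (List.mem_replicate.2 ⟨hp, rfl⟩))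
    exact ⟨⟨fun h => absurd h12.1 h, fun h => by cases h⟩,
      ⟨fun h => absurd h12.2 h, fun h => by cases h⟩⟩

theorem okw : OkwStmt := by
  intro k a b i s hV hs
  have hcount : ∀ j, (W a b i s j).count 0 = a j ∧ (W a b i s j).count 1 = b j := by
    intro j
    unfold W
    split_ifs with h
    · rw [h]
      exact blk_count _ _ hV.ai hV.bi s
    · simp [List.count_replicate]
  have hmem : ∀ j, ∀ c ∈ W a b i s j, c = 0 ∨ c = 1 := by
    intro j c hc
    unfold W at hc
    split_ifs at hc with h
    · exact blk_mem _ _ _ c hc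
    · rcases List.mem_append.1 hc with h | h
      · exact Or.inl (List.eq_of_mem_replicate h)
      · exact Or.inr (List.eq_of_mem_replicate h)
  have hWi : W a b i s i = blk (a i) (b i) s := by
    unfold W
    rw [if_pos rfl]
  refine ⟨⟨fun j hj c hc => ?_, fun j hj c hc => ?_⟩, fun j hj c hc => hmem j c hc, hcount, hmem,
    ?_⟩
  · unfold NS
    rcases hmem j c hc with rfl | rfl <;> omega
  · rcases hmem j c hc with rfl | rfl
    · have : (fun j => (W a b i s j).count 0) = a := funext fun j => (hcount j).1
      rw [this]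
      exact hV.da
    · have : (fun j => (W a b i s j).count 1) = b := funext fun j => (hcount j).2
      rw [this]
      exact hV.db
  · rw [hWi]
    exact blk_bef _ _ hV.ai hV.bi s hs

end Pool.Agent.MWH.H60
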