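import Pool.Agent.MWH.StmtsA

/-!
# MWH, row PSL: push, letters may come from the left into the common block
-/

set_option autoImplicit false

namespace Pool.Agent.MWH.H60

open Pool.Agent.Helper14_MV Pool.Agent.Helper2_MV Pool.Agent.MVO Pool.Agent.MWL Pool.Agent.MWS
  Pool.Agent.MWH

theorem bef_iff' (l : List ℕ) (x y : ℕ) : Bef l x y ↔ ¬ (List.Sublist [y, x] l) := by
  unfold Bef
  rw [List.cons_sublist_iff]
  constructor
  · rintro h ⟨r1, r2, hl, hy, hx⟩
    rw [List.singleton_sublist] at hx
    obtain ⟨s, t, rfl⟩ := List.append_of_mem hy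
    refine h s (t ++ r2) ?_ (List.mem_append_right _ hx)
    rw [hl, List.append_assoc, List.cons_append]
  · rintro h P Q hl hx
    refine h ⟨P ++ [y], Q, ?_, ?_, ?_⟩
    · rw [hl, List.append_assoc]
      rfl
    · exact List.mem_append_right _ (List.mem_singleton_self y)
    · rw [List.singleton_sublist]
      exact hx

theorem sh_deg {k : ℕ} {a b : ℕ → ℕ} (h : Sh k a b) (hb : 2 ≤ deg k b) : 2 ≤ deg k a := by
  by_cases h1 : ∃ j ≤ k, 2 ≤ a j
  · obtain ⟨j, hj, h2⟩ := h1
    have h3 : a j ≤ deg k a := by
      unfold deg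
      exact Finset.single_le_sum (f := a) (fun i _ => Nat.zero_le _)
        (Finset.mem_range.2 (by omega))
    omega
  · push Not at h1
    have h2 : deg k a = deg k b := by
      unfold deg
      refine Finset.sum_congr rfl fun j hj => ?_
      have hj' : j ≤ k := by
        rw [Finset.mem_range] at hj
        omega
      rcases h j hj' with h3 | h3
      · exact h3
      · have := h1 j hj'
        omega
    omega

/-- a family of blocks with the shape and the facts of `W` -/
theorem nfx (hN : NfeStmt) (hO : OkwStmt) {β : FIC} (hβ : BaseH β) {k : ℕ} {a b : ℕ → ℕ} {i : ℕ}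
    {s : Stt} (hV : Vd k a b i) (hs : Vs a b i s) (V : ℕ → List ℕ)
    (hl : ∀ j ≤ k, ∀ c ∈ V j, c = 0 ∨ c = 1)
    (h0 : Sh k (fun j => (V j).count 0) a) (h1 : Sh k (fun j => (V j).count 1) b)
    (hb0 : Bef (V i) 0 1 ↔ s = Stt.xy) (hb1 : Bef (V i) 1 0 ↔ s = Stt.yx) :
    OkB k V ∧ RR β (asm k V) (asm k (W a b i s)) := by
  obtain ⟨o1, -, o3, o4, o5, o6⟩ := hO k a b i s hV hs
  have hok : OkB k V := by
    refine ⟨fun j hj c hc => ?_, fun j hj c hc => ?_⟩
    · unfold NS
      rcases hl j hj c hc with rfl | rfl <;> omega
    · rcases hl j hj c hc with rfl | rfl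
      · exact sh_deg h0 hV.da
      · exact sh_deg h1 hV.db
  refine ⟨hok, hN β hβ k V _ hok o1 ?_ ?_⟩
  · intro c _ j hj
    show (V j).count c = (W a b i s j).count c ∨ (2 ≤ (V j).count c ∧ 2 ≤ (W a b i s j).count c)
    by_cases c0 : c = 0
    · subst c0
      rw [(o3 j).1]
      exact h0 j hj
    by_cases c1 : c = 1
    · subst c1
      rw [(o3 j).2]
      exact h1 j hj
    left
    rw [List.count_eq_zero.2, List.count_eq_zero.2]
    · intro h
      rcases o4 j c h with h | h
      · exact c0 h
      · exact c1 h
    · intro h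
      rcases hl j hj c h with h | h
      · exact c0 h
      · exact c1 h
  · intro j hj x y hxy hx hy _
    have ha : (0 : ℕ) ∈ V j → a j ≠ 0 := by
      intro h
      have h2 : (V j).count 0 ≠ 0 := by
        have := List.count_pos_iff.2 h
        omega
      rcases h0 j hj with h3 | h3
      · change (V j).count 0 = a j at h3
        omega
      · omega
    have hb : (1 : ℕ) ∈ V j → b j ≠ 0 := by
      intro h
      have h2 : (V j).count 1 ≠ 0 := by
        have := List.count_pos_iff.2 h
        omega
      rcases h1 j hj with h3 | h3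
      · change (V j).count 1 = b j at h3
        omega
      · omega
    have hji : (0 : ℕ) ∈ V j → (1 : ℕ) ∈ V j → j = i := by
      intro h2 h3
      by_contra h4
      rcases hV.un j hj h4 with h5 | h5
      · exact ha h2 h5
      · exact hb h3 h5
    rcases hl j hj x hx with rfl | rfl <;> rcases hl j hj y hy with rfl | rfl
    · exact absurd rfl hxy
    · have := hji hx hy
      subst this
      rw [hb0, o5]
    · have := hji hy hx
      subst this
      rw [hb1, o6]
    · exact absurd rfl hxy

theorem count_pshB (k : ℕ) (f : ℕ → ℕ) (B : ℕ → List ℕ) (j c : ℕ) :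
    (pshB k f B j).count c = psh k f (fun j => (B j).count c) j := by
  induction k with
  | zero =>
    rw [pshB_zero]
    unfold psh
    by_cases h : f 0 = j
    · simp [h]
    · simp [h]
  | succ k ih =>
    rw [pshB_succ, List.count_append, ih]
    unfold psh
    rw [Finset.sum_range_succ _ (k + 1)]
    by_cases h : f (k + 1) = j
    · rw [if_pos h, if_pos h]
    · rw [if_neg h, if_neg h]
      simp

theorem sub_of_block {k : ℕ} (f : ℕ → ℕ) (B : ℕ → List ℕ) (j : ℕ) :
    ∀ i ≤ k, f i = j → List.Sublist (B i) (pshB k f B j) := by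
  induction k with
  | zero =>
    intro i hi h
    have : i = 0 := by omega
    subst this
    rw [pshB_zero, if_pos h]
  | succ k ih =>
    intro i hi h
    rw [pshB_succ]
    rcases Nat.lt_or_ge i (k + 1) with h1 | h1
    · exact (ih i (by omega) h).trans (List.sublist_append_left _ _)
    · have : i = k + 1 := by omega
      subst this
      rw [if_pos h]
      exact List.sublist_append_right _ _

theorem sub_pshB {k : ℕ} (f : ℕ → ℕ) (B : ℕ → List ℕ) (j c d : ℕ)
    (h : List.Sublist [c, d] (pshB k f B j)) :
    ∃ j1 j2, j1 ≤ j2 ∧ j2 ≤ k ∧ f j1 = j ∧ f j2 = j ∧ c ∈ B j1 ∧ d ∈ B j2 ∧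
      (j1 = j2 → List.Sublist [c, d] (B j1)) := by
  induction k with
  | zero =>
    rw [pshB_zero] at h
    split_ifs at h with h0
    · exact ⟨0, 0, le_rfl, le_rfl, h0, h0, h.subset (by simp), h.subset (by simp), fun _ => h⟩
    · exact absurd h (by simp)
  | succ k ih =>
    rw [pshB_succ, List.sublist_append_iff] at h
    obtain ⟨l1, l2, hl, h1, h2⟩ := h
    match l1, hl with
    | [], hl =>
      rw [List.nil_append] at hl
      subst hl
      split_ifs at h2 with h0
      · exact ⟨k + 1, k + 1, le_rfl, le_rfl, h0, h0, h2.subset (by simp), h2.subset (by simp),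
          fun _ => h2⟩
      · exact absurd h2 (by simp)
    | [x], hl =>
      have hl2 : l2 = [d] := by
        simp only [List.cons_append, List.nil_append, List.cons.injEq] at hl
        exact hl.2.symm
      have hx : x = c := by
        simp only [List.cons_append, List.nil_append, List.cons.injEq] at hl
        exact hl.1.symm
      subst hl2
      subst hx
      split_ifs at h2 with h0
      · rw [List.singleton_sublist] at h1 h2
        rw [mem_pshB] at h1
        obtain ⟨i, hi, hfi, hc⟩ := h1
        exact ⟨i, k + 1, by omega, le_rfl, hfi, h0, hc, h2, fun h => by omega⟩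
      · exact absurd h2 (by simp)
    | [x, y], hl =>
      have hl2 : l2 = [] ∧ x = c ∧ y = d := by
        simp only [List.cons_append, List.nil_append, List.cons.injEq] at hl
        obtain ⟨h3, h4, h5⟩ := hl
        exact ⟨h5.symm, h3.symm, h4.symm⟩
      obtain ⟨-, rfl, rfl⟩ := hl2
      obtain ⟨j1, j2, e1, e2, e3, e4, e5, e6, e7⟩ := ih h1
      exact ⟨j1, j2, e1, by omega, e3, e4, e5, e6, e7⟩
    | x :: y :: z :: t, hl => simp at hl

theorem psh_one {k : ℕ} {f a : ℕ → ℕ} {i j : ℕ} (hi : i ≤ k) (hf : f i = j)
    (h : ∀ j' ≤ k, f j' = j → j' ≠ i → a j' = 0) : psh k f a j = a i := by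
  unfold psh
  rw [Finset.sum_eq_single i]
  · rw [if_pos hf]
  · intro l hl hli
    split_ifs with h1
    · rw [Finset.mem_range] at hl
      exact h l (by omega) h1 hli
    · rfl
  · intro hl
    exact absurd (Finset.mem_range.2 (by omega)) hl

theorem psh_ge {k : ℕ} {f a : ℕ → ℕ} {i j : ℕ} (hi : i ≤ k) (hf : f i = j) :
    a i ≤ psh k f a j := by
  unfold psh
  have := Finset.single_le_sum (f := fun l => if f l = j then a l else 0)
    (fun l _ => Nat.zero_le _) (Finset.mem_range.2 (show i < k + 1 by omega))
  rwa [if_pos hf] at this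

theorem psh_dm {k k' : ℕ} {f a a' : ℕ → ℕ} (h : Dm k k' f a a') {j' : ℕ} (hj : j' ≤ k') :
    psh k f a j' + (a' j' - psh k f a j') = a' j' ∨
      (2 ≤ psh k f a j' + (a' j' - psh k f a j') ∧ 2 ≤ a' j') := by
  rcases h j' hj with h1 | ⟨h1, j0, h2, h3⟩ | h1
  · right
    omega
  · left
    have h4 : psh k f a j' ≤ 1 := by
      unfold psh
      by_cases h5 : j0 ≤ k ∧ f j0 = j'
      · have := psh_one (a := a) h5.1 h5.2 (fun j hj hf hne => h3 j hj hf hne)
        unfold psh at this
        omega
      · rw [Finset.sum_eq_zero]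
        · omega
        intro l hl
        rw [Finset.mem_range] at hl
        split_ifs with h6
        · refine h3 l (by omega) h6 fun h7 => h5 ?_
          subst h7
          exact ⟨by omega, h6⟩
        · rfl
    omega
  · left
    have h4 : psh k f a j' = 0 := by
      unfold psh
      apply Finset.sum_eq_zero
      intro l hl
      rw [Finset.mem_range] at hl
      split_ifs with h6
      · exact h1 l (by omega) h6
      · rfl
    omega

theorem psl (hN : NfeStmt) (hO : OkwStmt) : PslStmt := by
  intro β θ hβ hle k k' f a b a' b' i hf hV hV' hda hdb hc hai hbi hbi' hT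
  have hfi : f i ≤ k' := hf.le i hV.ik
  have hs1 : Vs a b i Stt.yx := fun h => by cases h
  have hs2 : Vs a b i Stt.ov := fun _ => Or.inr hbi
  have hs1' : Vs a' b' (f i) Stt.yx := fun h => by cases h
  have hs2' : Vs a' b' (f i) Stt.ov := fun _ => Or.inr hbi'
  obtain ⟨Q, hQ⟩ : ∃ Q : ℕ → List ℕ, Q = fun j' => if j' = f i then [] else
      List.replicate (a' j' - psh k f a j') 0 ++ List.replicate (b' j' - psh k f b j') 1 :=
    ⟨_, rfl⟩
  have key : ∀ s : Stt, (s = Stt.yx ∨ s = Stt.ov) →
      OkB k' (fun j => [] ++ pshB k f (W a b i s) j ++ Q j) ∧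
      RR β (asm k' (fun j => [] ++ pshB k f (W a b i s) j ++ Q j))
        (asm k' (W a' b' (f i) s)) := by
    intro s hs
    have hsv : Vs a b i s := by
      rcases hs with rfl | rfl
      · exact hs1
      · exact hs2
    have hsv' : Vs a' b' (f i) s := by
      rcases hs with rfl | rfl
      · exact hs1'
      · exact hs2'
    obtain ⟨o1, -, o3, o4, o5, o6⟩ := hO k a b i s hV hsv
    have hcnt : ∀ j c, ([] ++ pshB k f (W a b i s) j ++ Q j).count c =
        psh k f (fun j => (W a b i s j).count c) j + (Q j).count c := by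
      intro j c
      rw [List.nil_append, List.count_append, count_pshB]
    have hw0 : (fun j => (W a b i s j).count 0) = a := funext fun j => (o3 j).1
    have hw1 : (fun j => (W a b i s j).count 1) = b := funext fun j => (o3 j).2
    have hQfi : Q (f i) = [] := by
      rw [hQ]
      exact if_pos rfl
    have hQj : ∀ j, j ≠ f i → Q j = List.replicate (a' j - psh k f a j) 0 ++
        List.replicate (b' j - psh k f b j) 1 := by
      intro j hj
      rw [hQ]
      exact if_neg hj
    have hmemi : ∀ j1 ≤ k, f j1 = f i → (0 : ℕ) ∈ W a b i s j1 → j1 = i := by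
      intro j1 h1 h2 h3
      by_contra h4
      have h5 := (hc j1 h1 h2 h4).1
      have h6 := List.count_pos_iff.2 h3
      rw [(o3 j1).1] at h6
      omega
    have hsubi : List.Sublist (W a b i s i) ([] ++ pshB k f (W a b i s) (f i) ++ Q (f i)) := by
      rw [List.nil_append, hQfi, List.append_nil]
      exact sub_of_block f _ _ i hV.ik rfl
    refine nfx hN hO hβ hV' hsv' _ ?_ ?_ ?_ ?_ ?_
    · intro j hj c hc
      rw [List.nil_append] at hc
      rcases List.mem_append.1 hc with hc | hc
      · rw [mem_pshB] at hc
        obtain ⟨l, -, -, h⟩ := hc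
        exact o4 l c h
      · by_cases h : j = f i
        · rw [h, hQfi] at hc
          cases hc
        · rw [hQj j h] at hc
          rcases List.mem_append.1 hc with h | h
          · exact Or.inl (List.eq_of_mem_replicate h)
          · exact Or.inr (List.eq_of_mem_replicate h)
    · intro j hj
      dsimp only
      rw [hcnt, hw0]
      by_cases h : j = f i
      · have h1 : psh k f a j = a i := psh_one hV.ik h.symm fun j' h1 h2 h3 =>
          (hc j' h1 (by rw [h2, h]) h3).1
        rw [h1, h, hQfi, List.count_nil, add_zero]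
        have h2 := hV.ai
        have h3 := hV'.ai
        by_cases h4 : a i = 1
        · left
          rw [h4, hai.1 h4]
        · right
          have h5 : a' (f i) ≠ 1 := fun h6 => h4 (hai.2 h6)
          omega
      · rw [hQj j h, List.count_append, List.count_replicate_self, List.count_replicate]
        have h1 := psh_dm hda hj
        simpa using h1
    · intro j hj
      dsimp only
      rw [hcnt, hw1]
      by_cases h : j = f i
      · rw [h, hQfi, List.count_nil, add_zero]
        right
        have h1 : b i ≤ psh k f b (f i) := psh_ge hV.ik rfl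
        exact ⟨by omega, hbi'⟩
      · rw [hQj j h, List.count_append, List.count_replicate_self, List.count_replicate]
        have h1 := psh_dm hdb hj
        simpa using h1
    · -- `Bef 0 1` is false
      have h1 : s ≠ Stt.xy := by
        rcases hs with rfl | rfl
        · intro h
          cases h
        · intro h
          cases h
      have h2 : ¬ Bef (W a b i s i) 0 1 := fun h => h1 (o5.1 h)
      rw [bef_iff', not_not] at h2
      rw [bef_iff']
      exact ⟨fun h => absurd (h2.trans hsubi) h, fun h => absurd h h1⟩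
    · rcases hs with rfl | rfl
      · refine ⟨fun _ => rfl, fun _ => ?_⟩
        rw [bef_iff', List.nil_append, hQfi, List.append_nil]
        intro h
        obtain ⟨j1, j2, e1, e2, e3, e4, e5, e6, e7⟩ := sub_pshB f _ _ _ _ h
        have h3 : j1 = i := hmemi j1 (by omega) e3 e5
        subst h3
        by_cases h4 : j2 = j1
        · have h5 := e7 h4.symm
          have h6 : Bef (W a b j1 Stt.yx j1) 1 0 := o6.2 rfl
          rw [bef_iff'] at h6
          exact h6 h5
        · have h5 := (hc j2 e2 e4 h4).2
          have h6 := List.count_pos_iff.2 e6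
          rw [(o3 j2).2] at h6
          rcases h5 with h5 | h5 <;> omega
      · have h2 : ¬ Bef (W a b i Stt.ov i) 1 0 := fun h => by
          have := o6.1 h
          cases this
        rw [bef_iff', not_not] at h2
        rw [bef_iff']
        exact ⟨fun h => absurd (h2.trans hsubi) h, fun h => by cases h⟩
  obtain ⟨k1, r1⟩ := key Stt.yx (Or.inl rfl)
  obtain ⟨k2, r2⟩ := key Stt.ov (Or.inr rfl)
  have hok1 := (hO k a b i Stt.yx hV hs1).1
  have hok2 := (hO k a b i Stt.ov hV hs2).1
  have hP := rr_push θ hf hok1.ok hok2.ok hT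
  have hbp : ∀ s, Vs a b i s → BlkOk k' (pshB k f (W a b i s)) := by
    intro s hs j _ c hc
    rw [mem_pshB] at hc
    obtain ⟨l, hl, -, h⟩ := hc
    unfold NS
    rcases (hO k a b i s hV hs).2.2.2.1 l c h with rfl | rfl <;> omega
  have hQ2 := rr_ins' θ (fun _ => []) Q (hbp _ hs1) (hbp _ hs2) hP
  have e1 : RR θ (asm k' (W a' b' (f i) Stt.yx))
      (asm k' (fun j => [] ++ pshB k f (W a b i Stt.yx) j ++ Q j)) := hle _ _ r1.symm
  have e2 : RR θ (asm k' (fun j => [] ++ pshB k f (W a b i Stt.ov) j ++ Q j))
      (asm k' (W a' b' (f i) Stt.ov)) := hle _ _ r2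
  exact θ.trans e1 (θ.trans hQ2 e2)

end Pool.Agent.MWH.H60
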