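import Pool.Agent.MWH.StmtsC

/-!
# MWH: tools for the rows on the canonical edges
-/

set_option autoImplicit false

namespace Pool.Agent.MWH.H60

open Pool.Agent.Helper14_MV Pool.Agent.Helper2_MV Pool.Agent.MVO Pool.Agent.MWL Pool.Agent.MWS
  Pool.Agent.MWH

/-- absorption of the second letter, then a transition over `β` -/
theorem abj_step (hJ : AbjStmt) {β θ : FIC} (hβ : BaseH β) (hle : β ≤ θ) {k : ℕ} {a b : ℕ → ℕ}
    {i : ℕ} (hV : Vd k a b i) {j : ℕ} (hj : j ≤ k) (hab : Ab 1 (FC.ofFIC θ) k b j)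
    (hc : j = i ∨ a j = 0) {s s' : Stt} (hs : Vs a b i s) (hs' : Vs a b i s')
    (h : Vd k a (ad 1 b j) i → Tr β k a (ad 1 b j) i s s') : Tr θ k a b i s s' := by
  obtain ⟨hV1, h1⟩ := hJ β θ hβ hle k a b i hV j hj hab hc
  have h2 : Tr θ k a (ad 1 b j) i s s' := hle _ _ (h hV1)
  exact θ.trans (h1 s hs) (θ.trans h2 (θ.symm (h1 s' hs')))

theorem vs_ad {a b : ℕ → ℕ} {i j : ℕ} {s : Stt} (h : Vs a b i s) : Vs a (ad 1 b j) i s := by
  intro hs
  rcases h hs with h1 | h1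
  · exact Or.inl h1
  · right
    unfold ad
    omega

end Pool.Agent.MWH.H60
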